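import Pool.Agent.VLF.Stmts
import Mathlib

/-! Row DUA of the VLF plan: homomorphisms to `ZMod n` separate. -/

namespace Pool.Agent.VLF.H59

open Pool.Agent.VLF

/-- An embedding of `ZMod n` into `ℚ / ℤ` whose image is the `n`-torsion. -/
theorem emb (n : ℕ) (hn : 0 < n) : ∃ e : ZMod n →+ AddCircle (1 : ℚ), Function.Injective e ∧
    ∀ u : AddCircle (1 : ℚ), n • u = 0 → u ∈ e.range := by
  have hord : addOrderOf (((1 : ℚ) / n : ℚ) : AddCircle (1 : ℚ)) = n :=
    AddCircle.addOrderOf_period_div hn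
  set t : AddCircle (1 : ℚ) := (((1 : ℚ) / n : ℚ) : AddCircle (1 : ℚ)) with ht
  have h0 : (zmultiplesHom (AddCircle (1 : ℚ)) t) (n : ℤ) = 0 := by
    rw [zmultiplesHom_apply, natCast_zsmul, ← hord]
    exact addOrderOf_nsmul_eq_zero t
  refine ⟨ZMod.lift n ⟨zmultiplesHom (AddCircle (1 : ℚ)) t, h0⟩, ?_, ?_⟩
  · rw [ZMod.lift_injective]
    intro m hm
    have hm' : m • t = 0 := by simpa [zmultiplesHom_apply] using hm
    have hd : (addOrderOf t : ℤ) ∣ m := addOrderOf_dvd_iff_zsmul_eq_zero.mpr hm'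
    rw [hord] at hd
    exact (ZMod.intCast_zmod_eq_zero_iff_dvd m n).mpr hd
  · intro u hu
    obtain ⟨m, -, hm⟩ := (AddCircle.nsmul_eq_zero_iff hn).mp hu
    refine ⟨((m : ℤ) : ZMod n), ?_⟩
    rw [ZMod.lift_coe]
    show (zmultiplesHom (AddCircle (1 : ℚ)) t) (m : ℤ) = u
    rw [zmultiplesHom_apply, natCast_zsmul, ht, ← hm, ← AddCircle.coe_nsmul]
    congr 1
    rw [nsmul_eq_mul]
    ring

theorem dua : DuaStmt := by
  intro H _ G n hn x hx
  by_contra hcon
  let K : AddSubgroup H := G ⊔ (nsmulAddMonoidHom (α := H) n).range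
  have hxK : x ∉ K := by
    intro hxK
    obtain ⟨g, hg, z, ⟨y, rfl⟩, hgz⟩ := AddSubgroup.mem_sup.mp hxK
    exact hcon ⟨g, hg, y, hgz.symm⟩
  have hne : (QuotientAddGroup.mk x : H ⧸ K) ≠ 0 := by
    intro h
    exact hxK ((QuotientAddGroup.eq_zero_iff x).mp h)
  obtain ⟨c, hc⟩ := CharacterModule.exists_character_apply_ne_zero_of_ne_zero hne
  obtain ⟨e, he, her⟩ := emb n hn
  let c0 : (H ⧸ K) →+ AddCircle (1 : ℚ) := c
  let c1 : H →+ AddCircle (1 : ℚ) := c0.comp (QuotientAddGroup.mk' K)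
  have hc1 : ∀ y ∈ K, c1 y = 0 := by
    intro y hy
    show c0 (QuotientAddGroup.mk y) = 0
    rw [(QuotientAddGroup.eq_zero_iff y).mpr hy, map_zero]
  have htor : ∀ y : H, c1 y ∈ e.range := by
    intro y
    apply her
    rw [← map_nsmul]
    exact hc1 _ (AddSubgroup.mem_sup_right ⟨y, rfl⟩)
  let φ : H →+ ZMod n := ((AddMonoidHom.ofInjective he).symm.toAddMonoidHom).comp
    (c1.codRestrict e.range htor)
  have hφ : ∀ y, e (φ y) = c1 y := by
    intro y
    have h1 : (AddMonoidHom.ofInjective he) (φ y) = c1.codRestrict e.range htor y := by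
      show (AddMonoidHom.ofInjective he) ((AddMonoidHom.ofInjective he).symm
        (c1.codRestrict e.range htor y)) = _
      exact AddEquiv.apply_symm_apply _ _
    have h2 : e (φ y) = (c1.codRestrict e.range htor y : AddCircle (1 : ℚ)) :=
      congrArg Subtype.val h1
    exact h2
  have hkill : ∀ y ∈ G, φ y = 0 := by
    intro y hy
    apply he
    rw [hφ, map_zero]
    exact hc1 y (AddSubgroup.mem_sup_left hy)
  have h0 := hx φ hkill
  apply hc
  have h3 := hφ x
  rw [h0, map_zero] at h3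
  exact h3.symm


end Pool.Agent.VLF.H59
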